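import Mathlib
import Pool.Agent.V1198.Arens

set_option autoImplicit false
set_option linter.unusedSectionVars false

noncomputable section

open Filter Topology

namespace Pool.Agent.V1198.WO

open Pool.Agent.V1198.AR

section Alg

variable {B : Type} [Ring B] {s s' T R : B}

theorem unit_left (h : s' * s = 1) (ha : IsUnit (s' * T)) :
    IsUnit (T * s' + (1 - s * s')) := by
  obtain ⟨u, hu⟩ := ha
  set ai : B := ↑u⁻¹ with hai
  have h1 : s' * T * ai = 1 := by rw [← hu, hai, Units.mul_inv]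
  have h2 : ai * (s' * T) = 1 := by rw [← hu, hai, Units.inv_mul]
  have h3 : s' * (1 - T * ai * s') = 0 := by
    rw [mul_sub, mul_one, ← mul_assoc, ← mul_assoc, h1, one_mul, sub_self]
  have h4 : (1 - T * ai * s') * T = 0 := by
    rw [sub_mul, one_mul, mul_assoc, mul_assoc, h2, mul_one, sub_self]
  have h5 : s' * (1 - s * s') = 0 := by
    rw [mul_sub, mul_one, ← mul_assoc, h, one_mul, sub_self]
  have h6 : (1 - s * s') * s = 0 := by
    rw [sub_mul, one_mul, mul_assoc, h, mul_one, sub_self]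
  refine isUnit_iff_exists.mpr ⟨s * ai * s' + (1 - T * ai * s'), ?_, ?_⟩
  · calc (T * s' + (1 - s * s')) * (s * ai * s' + (1 - T * ai * s'))
        = T * (s' * s) * ai * s' + T * (s' * (1 - T * ai * s')) +
          ((1 - s * s') * s) * ai * s' + (1 - T * ai * s') -
            s * (s' * (1 - T * ai * s')) := by noncomm_ring
      _ = 1 := by rw [h, h3, h6]; noncomm_ring
  · calc (s * ai * s' + (1 - T * ai * s')) * (T * s' + (1 - s * s'))
        = s * (ai * (s' * T)) * s' + s * ai * (s' * (1 - s * s')) +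
          ((1 - T * ai * s') * T) * s' + (1 - s * s') -
            T * ai * (s' * (1 - s * s')) := by noncomm_ring
      _ = 1 := by rw [h2, h5, h4]; noncomm_ring

theorem unit_right [Algebra ℝ B] (h : s' * s = 1) (ha : IsUnit (R * s)) {t : ℝ} (ht : t ≠ 0) :
    IsUnit (s * R + t • (1 - s * s')) := by
  obtain ⟨u, hu⟩ := ha
  set bi : B := ↑u⁻¹ with hbi
  have h1 : R * s * bi = 1 := by rw [← hu, hbi, Units.mul_inv]
  have h2 : bi * (R * s) = 1 := by rw [← hu, hbi, Units.inv_mul]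
  have h3 : (1 - s * bi * R) * s = 0 := by
    rw [sub_mul, one_mul, mul_assoc, mul_assoc, h2, mul_one, sub_self]
  have h4 : R * (1 - s * bi * R) = 0 := by
    rw [mul_sub, mul_one, ← mul_assoc, ← mul_assoc, h1, one_mul, sub_self]
  have h5 : s' * (1 - s * s') = 0 := by
    rw [mul_sub, mul_one, ← mul_assoc, h, one_mul, sub_self]
  have h6 : (1 - s * s') * s = 0 := by
    rw [sub_mul, one_mul, mul_assoc, h, mul_one, sub_self]
  refine isUnit_iff_exists.mpr ⟨s * bi * s' + t⁻¹ • (1 - s * bi * R), ?_, ?_⟩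
  · have e1 : (s * R) * (s * bi * s') = s * s' := by
      calc (s * R) * (s * bi * s') = s * (R * s * bi) * s' := by noncomm_ring
        _ = s * s' := by rw [h1, mul_one]
    have e2 : (s * R) * (t⁻¹ • (1 - s * bi * R)) = 0 := by
      rw [mul_smul_comm, mul_assoc, h4, mul_zero, smul_zero]
    have e3 : (t • (1 - s * s')) * (s * bi * s') = 0 := by
      calc (t • (1 - s * s')) * (s * bi * s') = t • (((1 - s * s') * s) * bi * s') := by
            rw [smul_mul_assoc]; congr 1; noncomm_ring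
        _ = 0 := by rw [h6, zero_mul, zero_mul, smul_zero]
    have e4 : (t • (1 - s * s')) * (t⁻¹ • (1 - s * bi * R)) = 1 - s * s' := by
      rw [smul_mul_smul_comm, mul_inv_cancel₀ ht, one_smul]
      calc (1 - s * s') * (1 - s * bi * R)
          = (1 - s * s') - ((1 - s * s') * s) * bi * R := by noncomm_ring
        _ = 1 - s * s' := by rw [h6, zero_mul, zero_mul, sub_zero]
    rw [add_mul, mul_add, mul_add, e1, e2, e3, e4]
    noncomm_ring
  · have e1 : (s * bi * s') * (s * R) = s * bi * R := by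
      calc (s * bi * s') * (s * R) = s * bi * (s' * s) * R := by noncomm_ring
        _ = s * bi * R := by rw [h, mul_one]
    have e2 : (s * bi * s') * (t • (1 - s * s')) = 0 := by
      rw [mul_smul_comm, mul_assoc, h5, mul_zero, smul_zero]
    have e3 : (t⁻¹ • (1 - s * bi * R)) * (s * R) = 0 := by
      rw [smul_mul_assoc, ← mul_assoc, h3, zero_mul, smul_zero]
    have e4 : (t⁻¹ • (1 - s * bi * R)) * (t • (1 - s * s')) = 1 - s * bi * R := by
      rw [smul_mul_smul_comm, inv_mul_cancel₀ ht, one_smul]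
      calc (1 - s * bi * R) * (1 - s * s')
          = (1 - s * bi * R) - ((1 - s * bi * R) * s) * s' := by noncomm_ring
        _ = 1 - s * bi * R := by rw [h3, zero_mul, sub_zero]
    rw [add_mul, mul_add, mul_add, e1, e2, e3, e4]
    noncomm_ring

theorem unit_prod [Algebra ℝ B] (h : s' * s = 1) (ha : IsUnit (s' * T)) (hb : IsUnit (R * s))
    {t : ℝ} (ht : t ≠ 0) : IsUnit (T * R + t • (1 - s * s')) := by
  have h5 : s' * (1 - s * s') = 0 := by
    rw [mul_sub, mul_one, ← mul_assoc, h, one_mul, sub_self]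
  have h6 : (1 - s * s') * s = 0 := by
    rw [sub_mul, one_mul, mul_assoc, h, mul_one, sub_self]
  have h7 : (1 - s * s') * (1 - s * s') = 1 - s * s' := by
    rw [mul_sub, mul_one, ← mul_assoc, h6, zero_mul, sub_zero]
  have e : T * R + t • (1 - s * s') =
      (T * s' + (1 - s * s')) * (s * R + t • (1 - s * s')) := by
    rw [add_mul, mul_add, mul_add, mul_smul_comm, mul_smul_comm, h7, mul_assoc T s' (1 - s * s'),
      h5, mul_zero, smul_zero, add_zero]
    rw [← mul_assoc (1 - s * s') s R, h6, zero_mul, zero_add]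
    rw [mul_assoc T s' (s * R), ← mul_assoc s' s R, h, one_mul]
  rw [e]
  exact (unit_left h ha).mul (unit_right h hb ht)

theorem not_unit (h : s' * s = 1) (h' : s * s' ≠ 1) (ha : IsUnit (s' * T)) :
    ¬ IsUnit (T * R) := by
  intro hu
  have hT : IsUnit T := by
    refine isUnit_iff_exists_and_exists.mpr ⟨?_, ?_⟩
    · obtain ⟨u, hu⟩ := hu
      exact ⟨R * ↑u⁻¹, by rw [← mul_assoc, ← hu, Units.mul_inv]⟩
    · obtain ⟨u, hu⟩ := ha
      exact ⟨↑u⁻¹ * s', by rw [mul_assoc, ← hu, Units.inv_mul]⟩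
  obtain ⟨v, rfl⟩ := hT
  have hs : IsUnit s' := (Units.isUnit_mul_units s' v).mp ha
  obtain ⟨u, rfl⟩ := hs
  apply h'
  have : s = ↑u⁻¹ := by
    calc s = (↑u⁻¹ * ↑u) * s := by rw [Units.inv_mul, one_mul]
      _ = ↑u⁻¹ := by rw [mul_assoc, h, mul_one]
  rw [this, Units.inv_mul]

end Alg

/-- Multiplication is weakly open when the units are dense. -/
theorem weaklyOpen_of_dense {A : Type} [NormedRing A]
    (hd : ∀ (x : A) (ε : ℝ), 0 < ε → ∃ u : Aˣ, ‖(u : A) - x‖ < ε) :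
    IsWeaklyOpenMul (fun x y : A => x * y) := by
  intro x y ε hε
  obtain ⟨u, hu⟩ := hd x ε hε
  have hpos : (0 : ℝ) < ‖(↑u⁻¹ : A)‖ + 1 := by positivity
  refine ⟨u * y, ε / (‖(↑u⁻¹ : A)‖ + 1), by positivity, fun z hz => ⟨u, ↑u⁻¹ * z, hu, ?_, ?_⟩⟩
  · have e : ↑u⁻¹ * z - y = ↑u⁻¹ * (z - ↑u * y) := by
      rw [mul_sub, ← mul_assoc, Units.inv_mul, one_mul]
    rw [e]
    rw [lt_div_iff₀ hpos] at hz
    calc ‖↑u⁻¹ * (z - ↑u * y)‖ ≤ ‖(↑u⁻¹ : A)‖ * ‖z - ↑u * y‖ := norm_mul_le _ _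
      _ ≤ ‖z - ↑u * y‖ * (‖(↑u⁻¹ : A)‖ + 1) := by nlinarith [norm_nonneg (z - ↑u * y)]
      _ < ε := hz
  · show ↑u * (↑u⁻¹ * z) = z
    rw [← mul_assoc, Units.mul_inv, one_mul]

/-- The relative obstruction to weak openness. -/
theorem not_weaklyOpen {E B : Type} [NormedAddCommGroup E] [NormedSpace ℝ E] [NormedRing B]
    [NormedAlgebra ℝ B] [CompleteSpace B] (m : E → E → E) (Φ : E → B)
    (hadd : ∀ x y, Φ (x + y) = Φ x + Φ y) (hsmul : ∀ (r : ℝ) x, Φ (r • x) = r • Φ x)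
    (hn : ∀ x, ‖Φ x‖ ≤ ‖x‖) (hm : ∀ x y, Φ (m x y) = Φ x * Φ y)
    (hsurj : ∀ b, ∃ x, Φ x = b) {s s' : B} (h : s' * s = 1) (h' : s * s' ≠ 1) :
    ¬ IsWeaklyOpenMul m := by
  intro hw
  have hsub : ∀ x y, Φ (x - y) = Φ x - Φ y := fun x y => by
    have := hadd (x - y) y
    rw [sub_add_cancel] at this
    rw [this, add_sub_cancel_right]
  obtain ⟨x0, hx0⟩ := hsurj s
  obtain ⟨y0, hy0⟩ := hsurj s'
  obtain ⟨P, hP⟩ := hsurj (1 - s * s')
  have hpos : (0 : ℝ) < ‖s‖ + ‖s'‖ + 1 := by positivity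
  obtain ⟨c, δ, hδ, hc⟩ := hw x0 y0 (1 / (‖s‖ + ‖s'‖ + 1)) (by positivity)
  have hL : ∀ x, ‖x - x0‖ < 1 / (‖s‖ + ‖s'‖ + 1) → IsUnit (s' * Φ x) := by
    intro x hx
    rw [lt_div_iff₀ hpos] at hx
    have e : s' * Φ x = 1 - s' * (Φ x0 - Φ x) := by
      rw [mul_sub, hx0, h, sub_sub_cancel]
    rw [e]
    refine isUnit_one_sub_of_norm_lt_one ?_
    have h1 : ‖Φ x0 - Φ x‖ ≤ ‖x - x0‖ := by
      rw [← hsub, norm_sub_rev x x0]
      exact hn _
    calc ‖s' * (Φ x0 - Φ x)‖ ≤ ‖s'‖ * ‖Φ x0 - Φ x‖ := norm_mul_le _ _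
      _ ≤ ‖x - x0‖ * (‖s‖ + ‖s'‖ + 1) := by
        nlinarith [norm_nonneg s, norm_nonneg s', norm_nonneg (x - x0)]
      _ < 1 := hx
  have hR : ∀ y, ‖y - y0‖ < 1 / (‖s‖ + ‖s'‖ + 1) → IsUnit (Φ y * s) := by
    intro y hy
    rw [lt_div_iff₀ hpos] at hy
    have e : Φ y * s = 1 - (Φ y0 - Φ y) * s := by
      rw [sub_mul, hy0, h, sub_sub_cancel]
    rw [e]
    refine isUnit_one_sub_of_norm_lt_one ?_
    have h1 : ‖Φ y0 - Φ y‖ ≤ ‖y - y0‖ := by
      rw [← hsub, norm_sub_rev y y0]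
      exact hn _
    calc ‖(Φ y0 - Φ y) * s‖ ≤ ‖Φ y0 - Φ y‖ * ‖s‖ := norm_mul_le _ _
      _ ≤ ‖y - y0‖ * (‖s‖ + ‖s'‖ + 1) := by
        nlinarith [norm_nonneg s, norm_nonneg s', norm_nonneg (y - y0)]
      _ < 1 := hy
  obtain ⟨x, y, hx, hy, hxy⟩ := hc c (by rw [sub_self, norm_zero]; exact hδ)
  have hPpos : (0 : ℝ) < ‖P‖ + 1 := by positivity
  set t : ℝ := δ / (2 * (‖P‖ + 1)) with ht
  have htpos : 0 < t := by positivity
  obtain ⟨x', y', hx', hy', hxy'⟩ := hc (c + t • P) (by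
    rw [add_sub_cancel_left, norm_smul, Real.norm_eq_abs, abs_of_pos htpos]
    have e : t * (‖P‖ + 1) = δ / 2 := by rw [ht]; field_simp
    nlinarith [norm_nonneg P])
  have hun : IsUnit (Φ x * Φ y + t • (1 - s * s')) := unit_prod h (hL x hx) (hR y hy) htpos.ne'
  have e : Φ x' * Φ y' = Φ x * Φ y + t • (1 - s * s') := by
    rw [← hm, hxy', hadd, hsmul, hP, ← hxy, hm]
  exact not_unit h h' (hL x' hx') (e ▸ hun)

end Pool.Agent.V1198.WO
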