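import Mathlib
import Pool.Agent.V1198.WO.Ring

set_option autoImplicit false
set_option linter.unusedSectionVars false

noncomputable section

open Filter Topology Polynomial

namespace Pool.Agent.V1198.WO

open Pool.Agent.V1198.AR

section FinRank

variable {H : Type} [NormedAddCommGroup H] [InnerProductSpace ℝ H] [CompleteSpace H]

/-- Finite rank. -/
def FR (K : H →L[ℝ] H) : Prop :=
  ∃ V : Submodule ℝ H, FiniteDimensional ℝ V ∧ ∀ x, K x ∈ V

theorem FR.zero : FR (0 : H →L[ℝ] H) := ⟨⊥, inferInstance, fun _ => by simp⟩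

theorem FR.add {K L : H →L[ℝ] H} (hK : FR K) (hL : FR L) : FR (K + L) := by
  obtain ⟨V, hV, h1⟩ := hK
  obtain ⟨W, hW, h2⟩ := hL
  exact ⟨V ⊔ W, inferInstance, fun x => Submodule.add_mem_sup (h1 x) (h2 x)⟩

theorem FR.smul {K : H →L[ℝ] H} (r : ℝ) (hK : FR K) : FR (r • K) := by
  obtain ⟨V, hV, h1⟩ := hK
  exact ⟨V, hV, fun x => V.smul_mem r (h1 x)⟩

theorem FR.mul_right {K : H →L[ℝ] H} (L : H →L[ℝ] H) (hK : FR K) : FR (K * L) := by
  obtain ⟨V, hV, h1⟩ := hK
  exact ⟨V, hV, fun x => h1 (L x)⟩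

theorem FR.mul_left {K : H →L[ℝ] H} (L : H →L[ℝ] H) (hK : FR K) : FR (L * K) := by
  obtain ⟨V, hV, h1⟩ := hK
  exact ⟨V.map (L : H →ₗ[ℝ] H), inferInstance, fun x => ⟨K x, h1 x, rfl⟩⟩

/-- A finite rank operator is annihilated by a nonzero polynomial. -/
theorem FR.algebraic {K : H →L[ℝ] H} (hK : FR K) : ∃ p : ℝ[X], p ≠ 0 ∧ aeval K p = 0 := by
  obtain ⟨V, hV, h1⟩ := hK
  let K' : H →ₗ[ℝ] V := LinearMap.codRestrict V (K : H →ₗ[ℝ] H) h1
  let f : V →ₗ[ℝ] V := K'.comp V.subtype
  have key : ∀ q : ℝ[X], ∀ x : H, (aeval K q) (K x) = ((aeval f q) (K' x) : V) := by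
    intro q
    induction q using Polynomial.induction_on' with
    | add p q hp hq =>
      intro x
      rw [map_add, map_add, LinearMap.add_apply, add_apply, hp, hq,
        Submodule.coe_add]
    | monomial n a =>
      intro x
      rw [aeval_monomial, aeval_monomial]
      have : ∀ n : ℕ, ∀ x : H, (K ^ n) (K x) = ((f ^ n) (K' x) : V) := by
        intro n
        induction n with
        | zero => intro x; rfl
        | succ n ih =>
          intro x
          rw [pow_succ, pow_succ]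
          exact ih (K x)
      rw [Algebra.algebraMap_eq_smul_one, Algebra.algebraMap_eq_smul_one, smul_one_mul,
        smul_one_mul]
      show a • (K ^ n) (K x) = ((a • (f ^ n) (K' x) : V) : H)
      rw [this, Submodule.coe_smul]
  refine ⟨f.charpoly * X, mul_ne_zero f.charpoly_monic.ne_zero X_ne_zero, ?_⟩
  rw [map_mul, aeval_X]
  ext x
  show (aeval K f.charpoly) (K x) = 0
  rw [key, LinearMap.aeval_self_charpoly]
  rfl

variable (H) in
/-- Scalars plus finite rank operators. -/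
def A0 : Subalgebra ℝ (H →L[ℝ] H) where
  carrier := {a | ∃ c : ℝ, FR (a - c • (1 : H →L[ℝ] H))}
  mul_mem' := by
    rintro a b ⟨c, hc⟩ ⟨d, hd⟩
    refine ⟨c * d, ?_⟩
    have e : a * b - (c * d) • (1 : H →L[ℝ] H) =
        (a - c • (1 : H →L[ℝ] H)) * b + c • (b - d • (1 : H →L[ℝ] H)) := by
      rw [sub_mul, smul_one_mul, smul_sub, smul_smul]
      abel
    rw [e]
    exact (hc.mul_right b).add (hd.smul c)
  add_mem' := by
    rintro a b ⟨c, hc⟩ ⟨d, hd⟩
    refine ⟨c + d, ?_⟩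
    have e : a + b - (c + d) • (1 : H →L[ℝ] H) =
        (a - c • (1 : H →L[ℝ] H)) + (b - d • (1 : H →L[ℝ] H)) := by
      rw [add_smul]
      abel
    rw [e]
    exact hc.add hd
  algebraMap_mem' := by
    intro r
    refine ⟨r, ?_⟩
    rw [Algebra.algebraMap_eq_smul_one, sub_self]
    exact FR.zero

variable (H) in
/-- The closure of the scalars plus finite rank operators. -/
def AS : Subalgebra ℝ (H →L[ℝ] H) := (A0 H).topologicalClosure

variable (H) in
/-- The algebra. -/
abbrev AH : Type := AS H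

instance : CompleteSpace (AH H) :=
  (Subalgebra.isClosed_topologicalClosure (A0 H)).completeSpace_coe

theorem FR.mem {K : H →L[ℝ] H} (hK : FR K) : K ∈ AS H :=
  (A0 H).le_topologicalClosure ⟨0, by rwa [zero_smul, sub_zero]⟩

example : NormedRing (AH H) := inferInstance
example : NormedAlgebra ℝ (AH H) := inferInstance
example : NonUnitalNormedRing (AH H) := inferInstance
example : NormedSpace ℝ (AH H) := inferInstance
example : IsScalarTower ℝ (AH H) (AH H) := inferInstance
example : SMulCommClass ℝ (AH H) (AH H) := inferInstance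

theorem dense_units (x : AH H) (ε : ℝ) (hε : 0 < ε) : ∃ u : (AH H)ˣ, ‖(u : AH H) - x‖ < ε := by
  have hx : (x : H →L[ℝ] H) ∈ closure (A0 H : Set (H →L[ℝ] H)) := x.2
  obtain ⟨b, ⟨c, hb⟩, hbx⟩ := Metric.mem_closure_iff.mp hx (ε / 2) (by positivity)
  obtain ⟨p, hp, hpK⟩ := hb.algebraic
  let K' : AH H := ⟨b - c • (1 : H →L[ℝ] H), hb.mem⟩
  have hpK' : aeval K' p = 0 := by
    apply Subtype.coe_injective
    have h0 := Polynomial.aeval_algHom_apply (AS H).val K' p
    exact h0.symm.trans hpK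
  have hfin : {t : ℝ | p.eval (-(c + t)) = 0}.Finite := by
    have h1 : {s : ℝ | p.IsRoot s}.Finite := Polynomial.finite_setOfPred_isRoot hp
    refine Set.Finite.subset (h1.image fun s => -s - c) ?_
    intro t ht
    exact ⟨-(c + t), ht, by ring⟩
  obtain ⟨t, ht, htn⟩ := ((Set.Ioo_infinite (show (0 : ℝ) < ε / 2 by positivity)).sdiff
    hfin).nonempty
  have hunit : IsUnit (algebraMap ℝ (AH H) (-(c + t)) - K') := by
    by_contra hcon
    have hs : -(c + t) ∈ spectrum ℝ K' := hcon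
    have h2 := spectrum.subset_polynomial_aeval K' p ⟨_, hs, rfl⟩
    rw [hpK'] at h2
    by_cases hnt : Nontrivial (AH H)
    · rw [spectrum.zero_eq] at h2
      exact htn h2
    · rw [not_nontrivial_iff_subsingleton] at hnt
      exact hcon (isUnit_of_subsingleton _)
  have hunit' : IsUnit (K' + algebraMap ℝ (AH H) (c + t)) := by
    have := hunit.neg
    rwa [neg_sub, map_neg, sub_neg_eq_add] at this
  obtain ⟨u, hu⟩ := hunit'
  refine ⟨u, ?_⟩
  rw [hu]
  have e : ((K' + algebraMap ℝ (AH H) (c + t) - x : AH H) : H →L[ℝ] H) =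
      (b - x) + t • (1 : H →L[ℝ] H) := by
    show b - c • (1 : H →L[ℝ] H) + algebraMap ℝ (H →L[ℝ] H) (c + t) - (x : H →L[ℝ] H) = _
    rw [Algebra.algebraMap_eq_smul_one, add_smul]
    abel
  show ‖((K' + algebraMap ℝ (AH H) (c + t) - x : AH H) : H →L[ℝ] H)‖ < ε
  rw [e]
  have h3 : ‖b - (x : H →L[ℝ] H)‖ < ε / 2 := by rwa [← dist_eq_norm, dist_comm]
  have h4 : ‖t • (1 : H →L[ℝ] H)‖ ≤ t := by
    rw [norm_smul, Real.norm_eq_abs, abs_of_pos ht.1]
    exact mul_le_of_le_one_right ht.1.le ContinuousLinearMap.norm_id_le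
  calc ‖(b - (x : H →L[ℝ] H)) + t • (1 : H →L[ℝ] H)‖
      ≤ ‖b - (x : H →L[ℝ] H)‖ + ‖t • (1 : H →L[ℝ] H)‖ := norm_add_le _ _
    _ < ε := by linarith [ht.2]

end FinRank

end Pool.Agent.V1198.WO
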