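import Mathlib
import Pool.Agent.V1198.WO.Fin

set_option autoImplicit false
set_option linter.unusedSectionVars false

noncomputable section

open Filter Topology

namespace Pool.Agent.V1198.WO

open Pool.Agent.V1198.AR

section Rep

variable {H : Type} [NormedAddCommGroup H] [InnerProductSpace ℝ H] [CompleteSpace H]

/-- The underlying operator. -/
def op (a : AH H) : H →L[ℝ] H := a

theorem norm_op (a : AH H) : ‖op a‖ = ‖a‖ := rfl
theorem op_mul (a b : AH H) (x : H) : op (a * b) x = op a (op b x) := rfl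
theorem op_add (a b : AH H) (x : H) : op (a + b) x = op a x + op b x := rfl
theorem op_smul (r : ℝ) (a : AH H) (x : H) : op (r • a) x = r • op a x := rfl

/-- The functional `a ↦ ⟨a η, ξ⟩`. -/
def om (η ξ : H) : Dl (AH H) :=
  LinearMap.mkContinuous
    { toFun := fun a => inner ℝ (op a η) ξ
      map_add' := fun a b => by rw [op_add, inner_add_left]
      map_smul' := fun r a => by
        rw [op_smul, real_inner_smul_left, RingHom.id_apply, smul_eq_mul] }
    (‖η‖ * ‖ξ‖) fun a => by
      refine (norm_inner_le_norm _ _).trans ?_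
      have h := (op a).le_opNorm η
      rw [norm_op] at h
      have h2 := mul_le_mul_of_nonneg_right h (norm_nonneg ξ)
      exact h2.trans (le_of_eq ((by intros; ring : ∀ x y z : ℝ, x * y * z = y * z * x) _ _ _))

theorem ev_om (η ξ : H) (a : AH H) : ev (om η ξ) a = inner ℝ (op a η) ξ := rfl

theorem norm_om_le (η ξ : H) : ‖om η ξ‖ ≤ ‖η‖ * ‖ξ‖ :=
  LinearMap.mkContinuous_norm_le _ (by positivity) _

theorem om_add_left (η η' ξ : H) : om (η + η') ξ = om η ξ + om η' ξ :=
  dl_ext fun a => by rw [ev_add, ev_om, ev_om, ev_om, map_add, inner_add_left]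

theorem om_smul_left (r : ℝ) (η ξ : H) : om (r • η) ξ = r • om η ξ :=
  dl_ext fun a => by rw [ev_smul, ev_om, ev_om, map_smul, real_inner_smul_left]

theorem om_add_right (η ξ ξ' : H) : om η (ξ + ξ') = om η ξ + om η ξ' :=
  dl_ext fun a => by rw [ev_add, ev_om, ev_om, ev_om, inner_add_right]

theorem om_smul_right (r : ℝ) (η ξ : H) : om η (r • ξ) = r • om η ξ :=
  dl_ext fun a => by rw [ev_smul, ev_om, ev_om, real_inner_smul_right]

/-- The functional `ξ ↦ F(ω_{η,ξ})`. -/
def Ph1 (F : Bd (AH H)) (η : H) : StrongDual ℝ H :=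
  LinearMap.mkContinuous
    { toFun := fun ξ => Ev F (om η ξ)
      map_add' := fun ξ ξ' => by rw [om_add_right, Ev_add]
      map_smul' := fun r ξ => by rw [om_smul_right, Ev_smul, RingHom.id_apply, smul_eq_mul] }
    (‖F‖ * ‖η‖) fun ξ => (Ev_le F _).trans (by
      rw [mul_assoc]
      exact mul_le_mul_of_nonneg_left (norm_om_le η ξ) (norm_nonneg F))

/-- The vector `Φ(F) η`. -/
def Ph0 (F : Bd (AH H)) (η : H) : H := (InnerProductSpace.toDual ℝ H).symm (Ph1 F η)

theorem inner_Ph0 (F : Bd (AH H)) (η ξ : H) : inner ℝ (Ph0 F η) ξ = Ev F (om η ξ) :=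
  InnerProductSpace.toDual_symm_apply

theorem norm_Ph0_le (F : Bd (AH H)) (η : H) : ‖Ph0 F η‖ ≤ ‖F‖ * ‖η‖ := by
  unfold Ph0
  rw [LinearIsometryEquiv.norm_map]
  exact LinearMap.mkContinuous_norm_le _ (by positivity) _

/-- The operator `Φ(F)` with `⟨Φ(F) η, ξ⟩ = F(a ↦ ⟨a η, ξ⟩)`. -/
def Ph (F : Bd (AH H)) : H →L[ℝ] H :=
  LinearMap.mkContinuous
    { toFun := fun η => Ph0 F η
      map_add' := fun η η' => by
        refine ext_inner_right ℝ fun ξ => ?_
        rw [inner_add_left, inner_Ph0, inner_Ph0, inner_Ph0, om_add_left, Ev_add]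
      map_smul' := fun r η => by
        refine ext_inner_right ℝ fun ξ => ?_
        rw [RingHom.id_apply, real_inner_smul_left, inner_Ph0, inner_Ph0, om_smul_left,
          Ev_smul] }
    ‖F‖ fun η => norm_Ph0_le F η

theorem inner_Ph (F : Bd (AH H)) (η ξ : H) : inner ℝ (Ph F η) ξ = Ev F (om η ξ) :=
  inner_Ph0 F η ξ

theorem norm_Ph_le (F : Bd (AH H)) : ‖Ph F‖ ≤ ‖F‖ :=
  LinearMap.mkContinuous_norm_le _ (norm_nonneg F) _

theorem op_ext {S T : H →L[ℝ] H} (h : ∀ η ξ, inner ℝ (S η) ξ = (inner ℝ (T η) ξ : ℝ)) :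
    S = T :=
  ContinuousLinearMap.ext fun η => ext_inner_right ℝ fun ξ => h η ξ

theorem Ph_add (F G : Bd (AH H)) : Ph (F + G) = Ph F + Ph G :=
  op_ext fun η ξ => by
    rw [add_apply, inner_add_left, inner_Ph, inner_Ph, inner_Ph, Ev_add']

theorem Ph_smul (r : ℝ) (F : Bd (AH H)) : Ph (r • F) = r • Ph F :=
  op_ext fun η ξ => by
    rw [smul_apply, real_inner_smul_left, inner_Ph, inner_Ph, Ev_smul']

theorem Ph_arens1 (F G : Bd (AH H)) : Ph (arens1 F G) = Ph F * Ph G := by
  refine op_ext fun η ξ => ?_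
  have e : Gf G (om η ξ) = om (Ph G η) ξ := by
    refine dl_ext fun a => ?_
    rw [ev_Gf, ev_om]
    have e2 : fa (om η ξ) a = om η (ContinuousLinearMap.adjoint (op a) ξ) := by
      refine dl_ext fun b => ?_
      rw [ev_fa, ev_om, ev_om, op_mul, ContinuousLinearMap.adjoint_inner_right]
    rw [e2, ← inner_Ph, ContinuousLinearMap.adjoint_inner_right]
  rw [inner_Ph, Ev_arens1, e, ← inner_Ph]
  rfl

theorem Ph_arens2 (F G : Bd (AH H)) : Ph (arens2 F G) = Ph F * Ph G := by
  refine op_ext fun η ξ => ?_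
  have e : fF (om η ξ) F = om η (ContinuousLinearMap.adjoint (Ph F) ξ) := by
    refine dl_ext fun a => ?_
    rw [ev_fF, ev_om, ContinuousLinearMap.adjoint_inner_right, inner_Ph]
    congr 1
  rw [inner_Ph, Ev_arens2, e, ← inner_Ph, ContinuousLinearMap.adjoint_inner_right]
  rfl

/-- Bounded nets have weak* cluster points in the bidual. -/
theorem exists_cluster' {ι : Type} (U : Ultrafilter ι) (a : ι → AH H) {M : ℝ}
    (ha : ∀ n, ‖a n‖ ≤ M) :
    ∃ F : Bd (AH H), ∀ f, Tendsto (fun n => ev f (a n)) (U : Filter ι) (𝓝 (Ev F f)) := by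
  have hcpt := WeakDual.isCompact_closedBall (𝕜 := ℝ) (0 : StrongDual ℝ (Dl (AH H))) M
  obtain ⟨z, hz, hlim⟩ := hcpt.ultrafilter_le_nhds
    (U.map fun n => StrongDual.toWeakDual (Fn (emb (a n)))) (by
      rw [Filter.le_principal_iff]
      refine Filter.mem_map.mpr (Filter.Eventually.of_forall fun n => ?_)
      refine (mem_closedBall_zero_iff (E := StrongDual ℝ (Dl (AH H)))).mpr ?_
      exact (norm_emb_le (a n)).trans (ha n))
  have hlim' : Tendsto (fun n => StrongDual.toWeakDual (Fn (emb (a n))))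
    (U : Filter ι) (𝓝 z) := hlim
  exact ⟨WeakDual.toStrongDual z, fun f => ((WeakDual.eval_continuous f).tendsto _).comp hlim'⟩

theorem Ph_surj (T : H →L[ℝ] H) : ∃ F : Bd (AH H), Ph F = T := by
  classical
  let U : Finset H → Submodule ℝ H := fun s => Submodule.span ℝ (s : Set H)
  have : ∀ s, FiniteDimensional ℝ (U s) := fun s => FiniteDimensional.span_finset ℝ s
  have hmono : Monotone U := fun s t hst => Submodule.span_mono (by exact_mod_cast hst)
  have htop : ⊤ ≤ (⨆ s, U s).topologicalClosure := by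
    intro x _
    refine Submodule.le_topologicalClosure _ ?_
    exact (le_iSup U {x}) (Submodule.subset_span (by simp))
  have hFR : ∀ s, FR (T * (U s).starProjection) := fun s =>
    FR.mul_left T ⟨U s, inferInstance, fun x => Submodule.starProjection_apply_mem _ x⟩
  let a : Finset H → AH H := fun s => ⟨T * (U s).starProjection, (hFR s).mem⟩
  have ha : ∀ s, ‖a s‖ ≤ ‖T‖ := by
    intro s
    show ‖T * (U s).starProjection‖ ≤ ‖T‖
    refine (norm_mul_le _ _).trans ?_
    exact mul_le_of_le_one_right (norm_nonneg _) (Submodule.starProjection_norm_le _)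
  obtain ⟨F, hF⟩ := exists_cluster' (Ultrafilter.of (atTop : Filter (Finset H))) a ha
  refine ⟨F, op_ext fun η ξ => ?_⟩
  rw [inner_Ph]
  refine tendsto_nhds_unique (hF (om η ξ)) ?_
  have h1 : Tendsto (fun s => (U s).starProjection η) atTop (𝓝 η) :=
    Submodule.starProjection_tendsto_self U hmono η htop
  have h2 : Tendsto (fun s => inner ℝ (T ((U s).starProjection η)) ξ) atTop
      (𝓝 (inner ℝ (T η) ξ)) :=
    ((T.continuous.tendsto _).comp h1).inner tendsto_const_nhds
  exact h2.mono_left (Ultrafilter.of_le _)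

/-- `A` has weakly open multiplication. -/
theorem AH_weaklyOpen : IsWeaklyOpenMul (fun x y : AH H => x * y) :=
  weaklyOpen_of_dense dense_units

/-- If `H` carries a non-unitary isometry then neither Arens product is weakly open. -/
theorem not_arens {s s' : H →L[ℝ] H} (h : s' * s = 1) (h' : s * s' ≠ 1) :
    ¬ IsWeaklyOpenMul (arens1 (A := AH H)) ∧ ¬ IsWeaklyOpenMul (arens2 (A := AH H)) :=
  ⟨not_weaklyOpen _ Ph Ph_add Ph_smul norm_Ph_le Ph_arens1 Ph_surj h h',
    not_weaklyOpen _ Ph Ph_add Ph_smul norm_Ph_le Ph_arens2 Ph_surj h h'⟩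

end Rep

end Pool.Agent.V1198.WO
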